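import Pool.Agent.X128.DO.Main

/-!
# The maximal dichromatic number over orientations is attained, unless `κ` is weakly inaccessible

The definitions `IsOrientation`, `Acyc` and `chi` are in `Pool.Agent.X128.DO.Basic`.
-/

set_option autoImplicit false
set_option linter.deprecated false

namespace Pool.Agent.Results.MP_6967ea_co.AttainedUnlessLarge

open Cardinal Set Pool.Agent.X128.DO

universe u

/-- `κ` is weakly inaccessible: an uncountable regular limit cardinal. -/
def WeaklyInaccessible (κ : Cardinal.{u}) : Prop :=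
  ℵ₀ < κ ∧ κ.IsRegular ∧ Order.IsSuccLimit κ

/-- `I` is a proper `κ`-complete ideal of subsets of `V` that contains all singletons and is
`κ`-saturated: among `κ` pairwise disjoint sets one lies in `I`. -/
def IsSaturatedIdeal {V : Type u} (κ : Cardinal.{u}) (I : Set (Set V)) : Prop :=
  (∀ v, {v} ∈ I) ∧ Set.univ ∉ I ∧ (∀ A B, A ⊆ B → B ∈ I → A ∈ I) ∧
    (∀ (J : Type u) (A : J → Set V), #J < κ → (∀ j, A j ∈ I) → (⋃ j, A j) ∈ I) ∧
    ∀ (M : Type u) (A : M → Set V), #M = κ → (∀ i j, i ≠ j → Disjoint (A i) (A j)) →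
      ∃ m, A m ∈ I

/-- **Attainment of suprema of dichromatic numbers.**  Let `κ` be an infinite cardinal and let
`D ξ` be orientations of `G` whose dichromatic numbers have supremum `κ`.  Then `G` has an
orientation with dichromatic number exactly `κ`, or else `κ` is weakly inaccessible and there is a
proper `κ`-complete `κ`-saturated ideal on the vertex set that contains all singletons. -/
theorem result {V : Type u} (G : SimpleGraph V) (κ : Cardinal.{u}) (hκ : ℵ₀ ≤ κ) (Ξ : Type u)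
    (D : Ξ → V → V → Prop) (hD : ∀ ξ, IsOrientation G (D ξ)) (hsup : ⨆ ξ, chi (D ξ) = κ) :
    (∃ E, IsOrientation G E ∧ chi E = κ) ∨
      (WeaklyInaccessible κ ∧ ∃ I : Set (Set V), IsSaturatedIdeal κ I) := by
  by_cases hno : ∃ E, IsOrientation G E ∧ chi E = κ
  · exact Or.inl hno
  refine Or.inr ?_
  have hle : ∀ ξ, chi (D ξ) ≤ κ := fun ξ => hsup ▸ le_ciSup (bddAbove_range _) ξ
  have hlt : ∀ ξ, chi (D ξ) < κ := fun ξ =>
    lt_of_le_of_ne (hle ξ) fun h => hno ⟨D ξ, hD ξ, h⟩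
  have hbad : Bad G κ D := by
    refine ⟨hκ, hD, fun ξ => chi_eq (D ξ) ▸ hlt ξ, fun c hc => ?_, fun ⟨E, h1, h2⟩ =>
      hno ⟨E, h1, (chi_eq E).trans h2⟩⟩
    rw [← hsup] at hc
    obtain ⟨ξ, hξ⟩ := exists_lt_of_lt_ciSup' hc
    exact ⟨ξ, chi_eq (D ξ) ▸ hξ⟩
  have hω : ℵ₀ < κ := lt_of_le_of_ne hκ fun h => hbad.not_countable h.symm
  have hreg : κ.IsRegular := ⟨hκ, not_lt.mp hbad.not_singular⟩
  have hlim : Order.IsSuccLimit κ := by
    refine ⟨fun hmin => ?_, fun c hc => ?_⟩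
    · exact absurd (hmin (bot_le : (0 : Cardinal.{u}) ≤ κ)) (not_le.mpr (aleph0_pos.trans hω))
    · obtain ⟨ξ, hξ⟩ := hbad.unb c hc.lt
      exact hc.2 hξ (hbad.lt ξ)
  refine ⟨⟨hω, hreg, hlim⟩, {B | Small κ D B}, fun v => ?_, hbad.univ_not_small,
    fun A B hAB hB => Small.mono hbad hAB hB, fun J A hJ hA => hbad.union A hJ hA,
    fun M A hM hA => ?_⟩
  · refine ⟨1 + 1, add_lt_of_lt hκ (one_lt_aleph0.trans_le hκ) (one_lt_aleph0.trans_le hκ),
      fun ξ => ?_⟩
    have := chiOn_le_mk (hD ξ).2.2 ({v} : Set V)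
    simpa using this
  · obtain ⟨N, k, hN, hk1, hk2⟩ := exists_cofinal κ
    rw [hreg.cof_ord, ← hM] at hN
    obtain ⟨e⟩ := Cardinal.eq.mp hN.symm
    refine hbad.no_many (fun m => k (e m)) (fun m => hk1 _) (fun c hc => ?_) A
      (fun i j hij => hA i j hij)
    obtain ⟨n, hn⟩ := hk2 c hc
    exact ⟨e.symm n, by simpa using hn⟩

end Pool.Agent.Results.MP_6967ea_co.AttainedUnlessLarge
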